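import Mathlib

/-!
MP_70c3c6_co, algebraic core: a finite set of nonzero vectors of the plane over a field of
characteristic zero, such that every difference of two of them is proportional to one of them, lies
on a line through the origin.
-/

set_option autoImplicit false
open Polynomial

namespace MPss

section Dvd

variable {R : Type*} [CommRing R] [IsDomain R] {ι : Type*} [DecidableEq ι]

theorem prod_dvd (r : ι → R) (T : Finset ι) (hr : ∀ i ∈ T, ∀ j ∈ T, r i = r j → i = j)
    (E : R[X]) (h : ∀ j ∈ T, E.eval (r j) = 0) : ∏ j ∈ T, (X - C (r j)) ∣ E := by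
  induction T using Finset.induction_on with
  | empty => simp
  | insert j T hj ih =>
    obtain ⟨Q, hQ⟩ := ih (fun i hi l hl => hr i (Finset.mem_insert_of_mem hi) l
      (Finset.mem_insert_of_mem hl)) fun l hl => h l (Finset.mem_insert_of_mem hl)
    have h1 := h j (Finset.mem_insert_self j T)
    rw [hQ, eval_mul, eval_prod] at h1
    have h2 : ∏ l ∈ T, eval (r j) (X - C (r l)) ≠ 0 := by
      rw [Finset.prod_ne_zero_iff]
      intro l hl h3
      rw [eval_sub, eval_X, eval_C, sub_eq_zero] at h3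
      have := hr j (Finset.mem_insert_self j T) l (Finset.mem_insert_of_mem hl) h3
      exact hj (this ▸ hl)
    have h3 : Q.eval (r j) = 0 := (mul_eq_zero.mp h1).resolve_left h2
    obtain ⟨Q', hQ'⟩ := dvd_iff_isRoot.mpr h3
    refine ⟨Q', ?_⟩
    rw [Finset.prod_insert hj, hQ, hQ']
    ring

theorem prod_dvd_eval (r : ι → R) (T : Finset ι) (hr : ∀ i ∈ T, ∀ j ∈ T, r i = r j → i = j)
    (E : R[X]) (h : ∀ j ∈ T, E.eval (r j) = 0) (s : R) : ∏ j ∈ T, (s - r j) ∣ E.eval s := by
  obtain ⟨Q, hQ⟩ := prod_dvd r T hr E h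
  refine ⟨Q.eval s, ?_⟩
  rw [hQ, eval_mul, eval_prod]
  simp

end Dvd

section TD

variable {K : Type*} [Field K]

/-- total degree at most `D` -/
def TD (B : K[X][X]) (D : ℕ) : Prop := ∀ i j, D < i + j → (B.coeff i).coeff j = 0

theorem TD.mono {B : K[X][X]} {D D' : ℕ} (h : TD B D) (hD : D ≤ D') : TD B D' :=
  fun i j hij => h i j (hD.trans_lt hij)

theorem TD.add {B B' : K[X][X]} {D : ℕ} (h : TD B D) (h' : TD B' D) : TD (B + B') D := by
  intro i j hij
  rw [coeff_add, coeff_add, h i j hij, h' i j hij, add_zero]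

theorem TD.mul {B B' : K[X][X]} {D D' : ℕ} (h : TD B D) (h' : TD B' D') :
    TD (B * B') (D + D') := by
  intro i j hij
  rw [coeff_mul, finsetSum_coeff]
  refine Finset.sum_eq_zero fun p hp => ?_
  rw [coeff_mul]
  refine Finset.sum_eq_zero fun q hq => ?_
  rw [Finset.HasAntidiagonal.mem_antidiagonal] at hp hq
  by_cases h1 : D < p.1 + q.1
  · rw [h _ _ h1, zero_mul]
  · rw [h' p.2 q.2 (by omega), mul_zero]

theorem TD.zero (D : ℕ) : TD (0 : K[X][X]) D := by
  intro i j _
  simp

theorem TD.ofC {l : K[X]} {D : ℕ} (h : l.natDegree ≤ D) : TD (C l) D := by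
  intro i j hij
  rw [coeff_C]
  split_ifs with hi
  · subst hi
    exact coeff_eq_zero_of_natDegree_lt (by omega)
  · simp

theorem TD.lin {f : K[X]} (h : f.natDegree ≤ 1) : TD (X - C f) 1 := by
  intro i j hij
  rw [coeff_sub, coeff_X, coeff_C, coeff_sub]
  have h1 : ((if 1 = i then (1 : K[X]) else 0)).coeff j = 0 := by
    split_ifs with hi
    · subst hi
      rw [coeff_one, if_neg (by omega)]
    · simp
  have h2 : ((if i = 0 then f else 0)).coeff j = 0 := by
    split_ifs with hi
    · subst hi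
      exact coeff_eq_zero_of_natDegree_lt (by omega)
    · simp
  rw [h1, h2, sub_zero]

theorem TD.prod {ι : Type*} [DecidableEq ι] (f : ι → K[X]) (T : Finset ι)
    (h : ∀ j ∈ T, (f j).natDegree ≤ 1) : TD (∏ j ∈ T, (X - C (f j))) T.card := by
  induction T using Finset.induction_on with
  | empty =>
    rw [Finset.prod_empty, Finset.card_empty]
    exact TD.ofC (l := 1) (by simp)
  | insert j T hj ih =>
    rw [Finset.prod_insert hj, Finset.card_insert_of_notMem hj, add_comm]
    exact (TD.lin (h j (Finset.mem_insert_self j T))).mul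
      (ih fun l hl => h l (Finset.mem_insert_of_mem hl))

theorem TD.natDegree_le {B : K[X][X]} {D : ℕ} (h : TD B D) : B.natDegree ≤ D := by
  rw [natDegree_le_iff_coeff_eq_zero]
  intro i hi
  ext j
  rw [h i j (by omega), coeff_zero]

theorem TD.coeff_natDegree_le {B : K[X][X]} {D i : ℕ} (h : TD B D) (hi : i ≤ D) :
    (B.coeff i).natDegree ≤ D - i := by
  rw [natDegree_le_iff_coeff_eq_zero]
  intro j hj
  exact h i j (by omega)

theorem TD.eval_eq {B : K[X][X]} {D : ℕ} (h : TD B D) (f : K[X]) :
    B.eval f = ∑ i ∈ Finset.range (D + 1), B.coeff i * f ^ i :=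
  eval_eq_sum_range' (Nat.lt_succ_of_le h.natDegree_le) f

theorem TD.eval_natDegree_le {B : K[X][X]} {D : ℕ} (h : TD B D) {f : K[X]}
    (hf : f.natDegree ≤ 1) : (B.eval f).natDegree ≤ D := by
  rw [h.eval_eq]
  refine natDegree_sum_le_of_forall_le _ _ fun i hi => ?_
  rw [Finset.mem_range] at hi
  refine natDegree_mul_le.trans ?_
  have h1 := h.coeff_natDegree_le (i := i) (by omega)
  have h2 : (f ^ i).natDegree ≤ i := by
    refine natDegree_pow_le.trans ?_
    nlinarith
  omega

/-- the form of highest degree at `(1, z)` -/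
noncomputable def top (B : K[X][X]) (D : ℕ) : K[X] :=
  ∑ i ∈ Finset.range (D + 1), C ((B.coeff i).coeff (D - i)) * X ^ i

theorem top_natDegree_le (B : K[X][X]) (D : ℕ) : (top B D).natDegree ≤ D := by
  refine natDegree_sum_le_of_forall_le _ _ fun i hi => ?_
  rw [Finset.mem_range] at hi
  exact (natDegree_C_mul_X_pow_le _ _).trans (by omega)

theorem top_eval {B : K[X][X]} {D : ℕ} (h : TD B D) {f : K[X]} (hf : f.natDegree ≤ 1) :
    (B.eval f).coeff D = (top B D).eval (f.coeff 1) := by
  rw [h.eval_eq, finsetSum_coeff, top, eval_finsetSum]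
  refine Finset.sum_congr rfl fun i hi => ?_
  rw [Finset.mem_range] at hi
  rw [eval_mul, eval_C, eval_pow, eval_X]
  have h1 := h.coeff_natDegree_le (i := i) (by omega)
  have h2 : (f ^ i).natDegree ≤ i := by
    refine natDegree_pow_le.trans ?_
    nlinarith
  have h3 : D = (D - i) + i := by omega
  have h4 : (f ^ i).coeff i = f.coeff 1 ^ i := by
    have := coeff_pow_of_natDegree_le (m := i) hf
    rwa [mul_one] at this
  calc (B.coeff i * f ^ i).coeff D = (B.coeff i * f ^ i).coeff ((D - i) + i) := by rw [← h3]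
    _ = (B.coeff i).coeff (D - i) * (f ^ i).coeff i := coeff_mul_add_eq_of_natDegree_le h1 h2
    _ = _ := by rw [h4]

end TD

end MPss
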