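import Pool.Agent.Lib.MP_70c3c6_co.Core

/-!
MP_70c3c6_co: interpolation on the lines `y = f_j(x)` by a polynomial of small total degree, and the
contradiction at infinity.
-/

set_option autoImplicit false
open Polynomial

namespace MPss

section Lin

variable {K : Type*} [Field K]

/-- the linear polynomial `a X + b` -/
noncomputable def lp (a b : K) : K[X] := C a * X + C b

theorem lp_eq {a b : K} (ha : a ≠ 0) : lp a b = C a * (X - C (-b / a)) := by
  have h : a * (-b / a) = -b := by field_simp
  rw [lp, mul_sub, ← C_mul, h, C_neg, sub_neg_eq_add]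

theorem lp_sub (a b a' b' : K) : lp a b - lp a' b' = lp (a - a') (b - b') := by
  simp only [lp, C_sub]
  ring

theorem lp_natDegree_le (a b : K) : (lp a b).natDegree ≤ 1 := natDegree_linear_le

theorem lp_coeff_one (a b : K) : (lp a b).coeff 1 = a := by
  simp [lp]

theorem lp_eval (a b x : K) : (lp a b).eval x = a * x + b := by
  simp [lp]

theorem lp_natDegree {a b : K} (ha : a ≠ 0) : (lp a b).natDegree = 1 := natDegree_linear ha

theorem coprime_unit {u : K} (hu : u ≠ 0) (p : K[X]) : IsCoprime (C u) p :=
  ⟨C u⁻¹, 0, by rw [← C_mul, inv_mul_cancel₀ hu, zero_mul, add_zero, C_1]⟩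

theorem lp_coprime {a b a' b' : K} (ha : a ≠ 0) (ha' : a' ≠ 0) (h : -b / a ≠ -b' / a') :
    IsCoprime (lp a b) (lp a' b') := by
  rw [lp_eq ha, lp_eq ha']
  refine IsCoprime.mul_left (coprime_unit ha _) (IsCoprime.mul_right
    (coprime_unit ha' _).symm ?_)
  exact isCoprime_X_sub_C_of_isUnit_sub (isUnit_iff_ne_zero.mpr (sub_ne_zero.mpr h))

end Lin

section Main

variable {K : Type*} [Field K] [DecidableEq K] {ι : Type*} [DecidableEq ι]

/-- the product over all roots but one -/
noncomputable def gx (X0 : Finset K) (x : K) : K[X] := ∏ y ∈ X0.erase x, (X - C y)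

theorem gx_mul {X0 : Finset K} {x : K} (hx : x ∈ X0) :
    (X - C x) * gx X0 x = ∏ y ∈ X0, (X - C y) :=
  Finset.mul_prod_erase X0 (fun y => (X - C y : K[X])) hx

theorem gx_monic (X0 : Finset K) (x : K) : (gx X0 x).Monic :=
  monic_prod_of_monic _ _ fun y _ => monic_X_sub_C y

theorem gx_natDegree {X0 : Finset K} {x : K} (hx : x ∈ X0) :
    (gx X0 x).natDegree = X0.card - 1 := by
  rw [gx, natDegree_prod_of_monic _ _ fun y _ => monic_X_sub_C y]
  simp [Finset.card_erase_of_mem hx]

variable (S : Finset ι) (a b : ι → K)

/-- the roots -/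
noncomputable def rts : Finset K := S.image fun i => -b i / a i

omit [DecidableEq ι] in
theorem mem_rts {i : ι} (hi : i ∈ S) : -b i / a i ∈ rts S a b := Finset.mem_image_of_mem _ hi

variable {S a b}

theorem interp (ha : ∀ i ∈ S, a i ≠ 0) (haa : ∀ i ∈ S, ∀ j ∈ S, i ≠ j → a i ≠ a j)
    (H : ∀ i ∈ S, ∀ j ∈ S, i ≠ j → ∃ l ∈ S, (a i - a j) * b l = (b i - b j) * a l)
    (T : Finset ι) (hT : T ⊆ S) : ∃ B : K[X][X], TD B ((rts S a b).card - 1) ∧
      ∀ j ∈ T, B.eval (lp (a j) (b j)) = gx (rts S a b) (-b j / a j) := by
  set X0 := rts S a b with hX0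
  set D := X0.card - 1 with hD
  set f : ι → K[X] := fun i => lp (a i) (b i) with hf
  set c : ι → K := fun i => -b i / a i with hc
  have hcX : ∀ i ∈ S, c i ∈ X0 := fun i hi => mem_rts S a b hi
  have hfg : ∀ i ∈ S, f i * gx X0 (c i) = C (a i) * ∏ y ∈ X0, (X - C y) := by
    intro i hi
    show lp (a i) (b i) * gx X0 (c i) = _
    rw [lp_eq (ha i hi), mul_assoc]
    congr 1
    exact gx_mul (hcX i hi)
  induction T using Finset.induction_on with
  | empty => exact ⟨0, TD.zero _, fun j hj => absurd hj (Finset.notMem_empty j)⟩
  | insert i T hiT ih =>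
    obtain ⟨B, hB, hBe⟩ := ih fun j hj => hT (Finset.mem_insert_of_mem hj)
    have hi : i ∈ S := hT (Finset.mem_insert_self i T)
    have hTS : ∀ j ∈ T, j ∈ S := fun j hj => hT (Finset.mem_insert_of_mem hj)
    have hij : ∀ j ∈ T, i ≠ j := fun j hj h => hiT (h ▸ hj)
    have haij : ∀ j ∈ T, a i - a j ≠ 0 := fun j hj =>
      sub_ne_zero.mpr (haa i hi j (hTS j hj) (hij j hj))
    -- the crossing points
    set e : ι → K := fun j => -(b i - b j) / (a i - a j) with he
    have heX : ∀ j ∈ T, e j ∈ X0 := by
      intro j hj
      obtain ⟨l, hl, h1⟩ := H i hi j (hTS j hj) (hij j hj)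
      have h2 : e j = c l := by
        show -(b i - b j) / (a i - a j) = -b l / a l
        rw [div_eq_div_iff (haij j hj) (ha l hl)]
        linear_combination h1
      rw [h2]
      exact hcX l hl
    have hfinj : ∀ j ∈ T, ∀ l ∈ T, f j = f l → j = l := by
      intro j hj l hl h
      by_contra hne
      refine haa j (hTS j hj) l (hTS l hl) hne ?_
      have := congrArg (fun p => coeff p 1) h
      simpa [hf, lp_coeff_one] using this
    have hdvd : ∏ j ∈ T, (f i - f j) ∣ gx X0 (c i) - B.eval (f i) := by
      rw [← Finset.prod_fiberwise_of_maps_to (g := e) (t := X0) heX fun j => f i - f j]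
      refine Finset.prod_dvd_of_coprime ?_ ?_
      · intro x _ y _ hxy
        refine IsCoprime.prod_left fun j hj => IsCoprime.prod_right fun l hl => ?_
        rw [Finset.mem_filter] at hj hl
        show IsCoprime (lp (a i) (b i) - lp (a j) (b j)) (lp (a i) (b i) - lp (a l) (b l))
        rw [lp_sub, lp_sub]
        refine lp_coprime (haij j hj.1) (haij l hl.1) ?_
        show e j ≠ e l
        rw [hj.2, hl.2]
        exact hxy
      · intro x hx
        -- the value at the crossing point
        set v : K := (f i).eval x with hv
        set U := T.filter fun j => e j = x with hU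
        have hUT : ∀ j ∈ U, j ∈ T := fun j hj => (Finset.mem_filter.mp hj).1
        have hUe : ∀ j ∈ U, e j = x := fun j hj => (Finset.mem_filter.mp hj).2
        have hUv : ∀ j ∈ U, a j * x + b j = v := by
          intro j hj
          have h1 : x * (a i - a j) = -(b i - b j) := by
            rw [← hUe j hj]
            exact div_mul_cancel₀ _ (haij j (hUT j hj))
          rw [hv, hf]
          simp only [lp_eval]
          linear_combination -h1
        have hUinj : ∀ j ∈ U, ∀ l ∈ U, f j = f l → j = l := fun j hj l hl =>
          hfinj j (hUT j hj) l (hUT l hl)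
        have hvi : a i * x + b i = v := by
          rw [hv, hf]
          simp only [lp_eval]
        have hcx : ∀ j ∈ S, a j * x + b j = 0 → c j = x := by
          intro j hj h
          show -b j / a j = x
          rw [div_eq_iff (ha j hj)]
          linear_combination -h
        by_cases hv0 : v = 0
        · have hE := prod_dvd_eval f U hUinj (B - C (gx X0 x)) (fun j hj => by
            rw [eval_sub, eval_C, hBe j (hUT j hj), sub_eq_zero]
            have := hcx j (hTS j (hUT j hj)) ((hUv j hj).trans hv0)
            show gx X0 (c j) = gx X0 x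
            rw [this]) (f i)
          rw [eval_sub, eval_C] at hE
          have h2 : c i = x := hcx i hi (hvi.trans hv0)
          rw [h2, ← dvd_neg, neg_sub]
          exact hE
        · have hlin : ∀ j, a j * x + b j = v → f j - C v = C (a j) * (X - C x) := by
            intro j h
            show lp (a j) (b j) - C v = _
            rw [← h, lp, mul_sub, C_add, C_mul]
            ring
          have hG : (X - C x) * gx X0 x = ∏ y ∈ X0, (X - C y) := gx_mul hx
          have hE := prod_dvd_eval f U hUinj (X * B - C (gx X0 x) * (X - C (C v)))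
            (fun j hj => by
              rw [eval_sub, eval_mul, eval_mul, eval_X, eval_C, eval_sub, eval_X, eval_C,
                hBe j (hUT j hj), hlin j (hUv j hj)]
              have h3 := hfg j (hTS j (hUT j hj))
              show f j * gx X0 (c j) - gx X0 x * (C (a j) * (X - C x)) = 0
              rw [h3, ← hG]
              ring) (f i)
          have h4 : eval (f i) (X * B - C (gx X0 x) * (X - C (C v))) =
              -(f i * (gx X0 (c i) - B.eval (f i))) := by
            rw [eval_sub, eval_mul, eval_mul, eval_X, eval_C, eval_sub, eval_X, eval_C,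
              hlin i hvi]
            linear_combination hfg i hi - C (a i) * hG
          rw [h4, dvd_neg] at hE
          refine IsCoprime.dvd_of_dvd_mul_left ?_ hE
          refine IsCoprime.prod_left fun j hj => ?_
          show IsCoprime (lp (a i) (b i) - lp (a j) (b j)) (lp (a i) (b i))
          rw [lp_sub]
          refine lp_coprime (haij j (hUT j hj)) (ha i hi) ?_
          show e j ≠ c i
          rw [hUe j hj]
          intro h5
          apply hv0
          rw [← hvi, h5]
          show a i * (-b i / a i) + b i = 0
          field_simp [ha i hi]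
          ring
    obtain ⟨l, hl⟩ := hdvd
    refine ⟨B + C l * ∏ j ∈ T, (X - C (f j)), ?_, ?_⟩
    · refine hB.add ?_
      by_cases hl0 : l = 0
      · rw [hl0, C_0, zero_mul]
        exact TD.zero _
      · have h1 : (∏ j ∈ T, (f i - f j)).natDegree = T.card := by
          rw [natDegree_prod _ _ fun j hj => ?_]
          · rw [Finset.sum_congr rfl fun j hj => ?_]
            · rw [Finset.sum_const, smul_eq_mul, mul_one]
            · show (lp (a i) (b i) - lp (a j) (b j)).natDegree = 1
              rw [lp_sub]
              exact lp_natDegree (haij j hj)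
          · intro h0
            have : (lp (a i) (b i) - lp (a j) (b j)).natDegree = 1 := by
              rw [lp_sub]
              exact lp_natDegree (haij j hj)
            have h0' : lp (a i) (b i) - lp (a j) (b j) = 0 := h0
            rw [h0', natDegree_zero] at this
            exact absurd this (by norm_num)
        have h1' : ∏ j ∈ T, (f i - f j) ≠ 0 := by
          rw [Finset.prod_ne_zero_iff]
          intro j hj h0
          have : (lp (a i) (b i) - lp (a j) (b j)).natDegree = 1 := by
            rw [lp_sub]
            exact lp_natDegree (haij j hj)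
          have h0' : lp (a i) (b i) - lp (a j) (b j) = 0 := h0
          rw [h0', natDegree_zero] at this
          exact absurd this (by norm_num)
        have h2 : (gx X0 (c i) - B.eval (f i)).natDegree ≤ D := by
          refine (natDegree_sub_le _ _).trans (max_le ?_ ?_)
          · rw [gx_natDegree (hcX i hi)]
          · exact hB.eval_natDegree_le (lp_natDegree_le _ _)
        rw [hl, natDegree_mul h1' hl0, h1] at h2
        exact ((TD.ofC (l := l) le_rfl).mul (TD.prod f T fun j _ => lp_natDegree_le _ _)).mono
          (by omega)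
    · intro j hj
      rw [eval_add, eval_mul, eval_C, eval_prod]
      simp only [eval_sub, eval_X, eval_C]
      rcases Finset.mem_insert.mp hj with rfl | hj
      · show B.eval (f j) + l * ∏ x ∈ T, (f j - f x) = gx X0 (c j)
        linear_combination -hl
      · have h0 : ∏ x ∈ T, (lp (a j) (b j) - f x) = 0 :=
          Finset.prod_eq_zero hj (sub_self _)
        rw [h0, mul_zero, add_zero]
        exact hBe j hj

/-- all roots coincide -/
theorem card_rts [CharZero K] (hS : S.Nonempty) (ha : ∀ i ∈ S, a i ≠ 0)
    (haa : ∀ i ∈ S, ∀ j ∈ S, i ≠ j → a i ≠ a j)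
    (H : ∀ i ∈ S, ∀ j ∈ S, i ≠ j → ∃ l ∈ S, (a i - a j) * b l = (b i - b j) * a l) :
    (rts S a b).card = 1 := by
  obtain ⟨B, hB, hBe⟩ := interp ha haa H S subset_rfl
  set X0 := rts S a b with hX0
  set D := X0.card - 1 with hD
  obtain ⟨i0, hi0⟩ := hS
  have hpos : 0 < X0.card := Finset.card_pos.mpr ⟨_, mem_rts S a b hi0⟩
  -- the leading form is constant
  have htop : top B D = 1 := by
    refine eq_of_degrees_lt_of_eval_finset_eq (S.image a) ?_ ?_ ?_
    · have h1 : X0.card ≤ (S.image a).card := by
        rw [Finset.card_image_of_injOn]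
        · exact Finset.card_image_le
        · intro i hi j hj h
          by_contra hne
          exact haa i hi j hj hne h
      refine (degree_le_natDegree).trans_lt ?_
      have h2 := top_natDegree_le B D
      exact_mod_cast (by omega : (top B D).natDegree < (S.image a).card)
    · rw [degree_one]
      have h3 : 0 < (S.image a).card := Finset.card_pos.mpr ⟨_, Finset.mem_image_of_mem a hi0⟩
      exact_mod_cast h3
    · intro x hx
      obtain ⟨j, hj, rfl⟩ := Finset.mem_image.mp hx
      have h1 := top_eval hB (lp_natDegree_le (a j) (b j))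
      rw [lp_coeff_one] at h1
      rw [← h1, hBe j hj, eval_one]
      have h2 := gx_monic X0 (-b j / a j)
      have h3 := gx_natDegree (mem_rts S a b hj)
      have h4 : (gx X0 (-b j / a j)).coeff (gx X0 (-b j / a j)).natDegree = 1 := h2
      rw [h3] at h4
      exact h4
  -- the restriction to the line `y = 0`
  have hder : B.eval 0 = derivative (∏ y ∈ X0, (X - C y)) := by
    refine eq_of_degrees_lt_of_eval_finset_eq X0 ?_ ?_ ?_
    · have h1 := hB.eval_natDegree_le (f := 0) (by simp)
      refine (degree_le_natDegree).trans_lt ?_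
      exact_mod_cast (by omega : (B.eval 0).natDegree < X0.card)
    · have h1 : (∏ y ∈ X0, (X - C y)).natDegree = X0.card := by
        rw [natDegree_prod_of_monic _ _ fun y _ => monic_X_sub_C y]
        simp
      have h0 : (∏ y ∈ X0, (X - C y)) ≠ 0 :=
        (monic_prod_of_monic _ _ fun y _ => monic_X_sub_C y).ne_zero
      have h2 := degree_derivative_lt h0
      rw [degree_eq_natDegree h0, h1] at h2
      exact h2
    · intro x hx
      obtain ⟨j, hj, rfl⟩ := Finset.mem_image.mp hx
      have h1 : (B.eval (lp (a j) (b j))).eval (-b j / a j) = (B.eval 0).eval (-b j / a j) := by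
        have h2 : ∀ f : K[X], (B.eval f).eval (-b j / a j) =
            (B.map (evalRingHom (-b j / a j))).eval (f.eval (-b j / a j)) := by
          intro f
          rw [eval_map]
          exact (eval₂_at_apply (evalRingHom (-b j / a j)) f).symm
        rw [h2, h2, lp_eval, eval_zero]
        congr 1
        field_simp [ha j hj]
        ring
      rw [← h1, hBe j hj]
      rw [← gx_mul hx, derivative_mul, derivative_X_sub_C]
      simp
  have h1 : (B.eval 0).coeff D = 1 := by
    have := top_eval hB (f := 0) (by simp)
    rw [this, htop, eval_one]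
  have h2 : (derivative (∏ y ∈ X0, (X - C y))).coeff D = (X0.card : K) := by
    rw [coeff_derivative]
    have h3 : (∏ y ∈ X0, (X - C y) : K[X]).Monic :=
      monic_prod_of_monic _ _ fun y _ => monic_X_sub_C y
    have h4 : (∏ y ∈ X0, (X - C y)).natDegree = X0.card := by
      rw [natDegree_prod_of_monic _ _ fun y _ => monic_X_sub_C y]
      simp
    have h5 : D + 1 = X0.card := by omega
    have h6 : (∏ y ∈ X0, (X - C y)).coeff (D + 1) = 1 := by
      have h7 : (∏ y ∈ X0, (X - C y)).coeff (∏ y ∈ X0, (X - C y)).natDegree = 1 := h3
      rw [h4] at h7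
      rw [h5]
      exact h7
    rw [h6, one_mul]
    exact_mod_cast h5
  rw [hder, h2] at h1
  exact_mod_cast h1

/-- the algebraic core, generic coordinates -/
theorem core_generic [CharZero K] (ha : ∀ i ∈ S, a i ≠ 0)
    (haa : ∀ i ∈ S, ∀ j ∈ S, i ≠ j → a i ≠ a j)
    (H : ∀ i ∈ S, ∀ j ∈ S, i ≠ j → ∃ l ∈ S, (a i - a j) * b l = (b i - b j) * a l) :
    ∀ i ∈ S, ∀ j ∈ S, a i * b j = a j * b i := by
  intro i hi j hj
  have h1 := card_rts ⟨i, hi⟩ ha haa H
  obtain ⟨x, hx⟩ := Finset.card_eq_one.mp h1
  have h2 : -b i / a i = x := by
    have := mem_rts S a b hi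
    rw [hx, Finset.mem_singleton] at this
    exact this
  have h3 : -b j / a j = x := by
    have := mem_rts S a b hj
    rw [hx, Finset.mem_singleton] at this
    exact this
  have h4 : -b i / a i = -b j / a j := h2.trans h3.symm
  rw [div_eq_div_iff (ha i hi) (ha j hj)] at h4
  linear_combination h4

end Main

end MPss
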